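import Mathlib

/-!
# Finite initial segments of sequences, as lists
-/

set_option autoImplicit false

namespace Pool.Agent.R492.Ladder

open Set

theorem getD_segment {α : Type} (s : List α) (a b : α) :
    (List.range (s.length + 1)).map (fun k => (s ++ [a]).getD k b) = s ++ [a] := by
  apply List.ext_getElem
  · simp
  · intro i h1 h2
    simp only [List.getElem_map, List.getElem_range]
    exact List.getD_eq_getElem _ _ h2

theorem trace_sUnion_finite {X : Type} {β : Type} (tr : X → β) (F : Set (Set X)) (hF : F.Finite)
    (h : ∀ U ∈ F, (tr '' U).Finite) : (tr '' (⋃₀ F)).Finite := by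
  rw [image_sUnion]
  exact (hF.image _).sUnion (by rintro _ ⟨U, hU, rfl⟩; exact h U hU)

end Pool.Agent.R492.Ladder
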