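import Mathlib
import Pool.Agent.H748R3.Stat

/-!
# The space of finite subsets and ladders of `ω₁`
-/

set_option autoImplicit false

namespace Pool.Agent.R492.Ladder

open Set Topology TopologicalSpace Filter Pool.Agent.H748R3

/-- An `ω₁`-like order with a set `E` and a ladder system `C`. -/
structure Data (W : Type) [LinearOrder W] where
  /-- `W` is `ω₁`-like -/
  hW : OmegaOneLike W
  /-- the set of indices -/
  E : Set W
  /-- the ladders -/
  C : W → Set W
  sub : ∀ δ, C δ ⊆ Iio δ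
  fin : ∀ δ γ, γ < δ → (C δ ∩ Iio γ).Finite
  inf : ∀ δ, (Iio δ).Nonempty → (∀ a < δ, ∃ b, a < b ∧ b < δ) → (C δ).Infinite

variable {W : Type} [LinearOrder W]

/-- The points: finite subsets of `W`, and the ladders `C δ` for `δ ∈ E`. -/
def Sp (D : Data W) : Type := {x : Set W // x.Finite ∨ ∃ δ ∈ D.E, x = D.C δ}

variable (D : Data W)

/-- `[x|α]`: the points with the same trace on `Iio α` as `x`. -/
def cell (x : Sp D) (α : W) : Set (Sp D) := {y | y.1 ∩ Iio α = x.1 ∩ Iio α}

include D in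
theorem nonemptyW : Nonempty W := by
  by_contra hn
  rw [not_nonempty_iff] at hn
  exact D.hW.unc inferInstance

theorem mem_cell_self (x : Sp D) (α : W) : x ∈ cell D x α := rfl

theorem cell_anti (x : Sp D) {α β : W} (h : α ≤ β) : cell D x β ⊆ cell D x α := by
  intro y hy
  change y.1 ∩ Iio β = x.1 ∩ Iio β at hy
  change y.1 ∩ Iio α = x.1 ∩ Iio α
  have : Iio β ∩ Iio α = Iio α := inter_eq_right.mpr (Iio_subset_Iio h)
  rw [← this, ← inter_assoc, hy, inter_assoc]

theorem cell_eq {x y : Sp D} {α : W} (h : y ∈ cell D x α) : cell D y α = cell D x α := by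
  change y.1 ∩ Iio α = x.1 ∩ Iio α at h
  unfold cell
  rw [h]

instance : TopologicalSpace (Sp D) where
  IsOpen U := ∀ x ∈ U, ∃ α, cell D x α ⊆ U
  isOpen_univ := fun _ _ => ⟨(nonemptyW D).some, subset_univ _⟩
  isOpen_inter := by
    intro s t hs ht x hx
    obtain ⟨α, hα⟩ := hs x hx.1
    obtain ⟨β, hβ⟩ := ht x hx.2
    exact ⟨max α β, subset_inter ((cell_anti D x (le_max_left _ _)).trans hα)
      ((cell_anti D x (le_max_right _ _)).trans hβ)⟩
  isOpen_sUnion := by
    intro S hS x hx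
    obtain ⟨s, hs, hxs⟩ := hx
    obtain ⟨α, hα⟩ := hS s hs x hxs
    exact ⟨α, hα.trans (subset_sUnion_of_mem hs)⟩

theorem isOpen_sp (U : Set (Sp D)) : IsOpen U ↔ ∀ x ∈ U, ∃ α, cell D x α ⊆ U := Iff.rfl

theorem isOpen_cell (x : Sp D) (α : W) : IsOpen (cell D x α) := by
  rw [isOpen_sp]
  intro y hy
  exact ⟨α, (cell_eq D hy).subset⟩

theorem isClosed_cell (x : Sp D) (α : W) : IsClosed (cell D x α) := by
  rw [← isOpen_compl_iff, isOpen_sp]
  intro y hy
  refine ⟨α, fun z hz hzx => hy ?_⟩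
  have h1 := cell_eq D hz
  have h2 := cell_eq D hzx
  rw [← h2, h1]
  exact mem_cell_self D y α

theorem basis_clopen : IsTopologicalBasis {s : Set (Sp D) | IsClopen s} := by
  refine isTopologicalBasis_of_isOpen_of_nhds (fun u hu => hu.isOpen) ?_
  intro x U hxU hU
  obtain ⟨α, hα⟩ := (isOpen_sp D U).mp hU x hxU
  exact ⟨cell D x α, ⟨isClosed_cell D x α, isOpen_cell D x α⟩, mem_cell_self D x α, hα⟩

include D in
theorem exists_gt' (S : Set W) (hS : S.Countable) : ∃ b : W, ∀ a ∈ S, a < b := D.hW.bdd S hS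

instance : T2Space (Sp D) := by
  refine ⟨fun x y hxy => ?_⟩
  have h1 : x.1 ≠ y.1 := fun h => hxy (Subtype.ext h)
  obtain ⟨a, ha⟩ : ∃ a, ¬ (a ∈ x.1 ↔ a ∈ y.1) := by
    by_contra hc
    push Not at hc
    exact h1 (Set.ext hc)
  obtain ⟨α, hα⟩ := exists_gt' D {a} (countable_singleton a)
  have haα : a < α := hα a rfl
  refine ⟨cell D x α, cell D y α, isOpen_cell D x α, isOpen_cell D y α, mem_cell_self D x α,
    mem_cell_self D y α, ?_⟩
  rw [Set.disjoint_left]
  intro z hz1 hz2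
  change z.1 ∩ Iio α = x.1 ∩ Iio α at hz1
  change z.1 ∩ Iio α = y.1 ∩ Iio α at hz2
  apply ha
  have h3 : a ∈ x.1 ∩ Iio α ↔ a ∈ y.1 ∩ Iio α := by rw [← hz1, ← hz2]
  constructor
  · intro h; exact (h3.mp ⟨h, haα⟩).1
  · intro h; exact (h3.mpr ⟨h, haα⟩).1

/-- `P`-space. -/
theorem isOpen_sInter_countable (S : Set (Set (Sp D))) (hS : S.Countable)
    (h : ∀ U ∈ S, IsOpen U) : IsOpen (⋂₀ S) := by
  rw [isOpen_sp]
  intro x hx
  have h1 : ∀ U : Set (Sp D), ∃ α, U ∈ S → cell D x α ⊆ U := by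
    intro U
    by_cases hU : U ∈ S
    · obtain ⟨α, hα⟩ := (isOpen_sp D U).mp (h U hU) x (hx U hU)
      exact ⟨α, fun _ => hα⟩
    · exact ⟨(nonemptyW D).some, fun hc => absurd hc hU⟩
  choose α hα using h1
  obtain ⟨b, hb⟩ := exists_gt' D (α '' S) (hS.image α)
  refine ⟨b, subset_sInter fun U hU => ?_⟩
  exact (cell_anti D x (hb _ ⟨U, hU, rfl⟩).le).trans (hα U hU)

theorem isClosed_of_countable (A : Set (Sp D)) (hA : A.Countable) : IsClosed A := by
  rw [← isOpen_compl_iff]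
  have h1 : Aᶜ = ⋂₀ ((fun a => ({a} : Set (Sp D))ᶜ) '' A) := by
    ext x
    simp only [mem_compl_iff, mem_sInter, mem_image, forall_exists_index, and_imp,
      forall_apply_eq_imp_iff₂, mem_singleton_iff]
    constructor
    · intro hx a ha hxa
      exact hx (hxa ▸ ha)
    · intro hx hxA
      exact hx x hxA rfl
  rw [h1]
  apply isOpen_sInter_countable D _ (hA.image _)
  rintro _ ⟨a, _, rfl⟩
  exact isOpen_compl_singleton

theorem discrete_of_countable (A : Set (Sp D)) (hA : A.Countable) : DiscreteTopology A := by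
  rw [discreteTopology_iff_forall_isClosed]
  intro s
  have h1 : IsClosed (Subtype.val '' s : Set (Sp D)) :=
    isClosed_of_countable D _ (hA.mono (by rintro _ ⟨a, _, rfl⟩; exact a.2))
  have h2 : s = Subtype.val ⁻¹' (Subtype.val '' s : Set (Sp D)) :=
    (preimage_image_eq s Subtype.val_injective).symm
  rw [h2]
  exact h1.preimage continuous_subtype_val

theorem finite_of_compact (K : Set (Sp D)) (hK : IsCompact K) : K.Finite := by
  by_contra hinf
  obtain ⟨A, hAK, hAinf, hAc⟩ : ∃ A ⊆ K, A.Infinite ∧ A.Countable := by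
    have hinf' : K.Infinite := hinf
    refine ⟨range (fun n => (hinf'.natEmbedding K n : Sp D)), ?_, ?_, countable_range _⟩
    · rintro _ ⟨n, rfl⟩
      exact (hinf'.natEmbedding K n).2
    · exact infinite_range_of_injective fun m n hmn =>
        (hinf'.natEmbedding K).injective (Subtype.ext hmn)
  obtain ⟨x, -, hx⟩ := hAinf.exists_accPt_of_subset_isCompact hK hAK
  rw [accPt_principal_iff_clusterPt, ← mem_closure_iff_clusterPt] at hx
  rw [(isClosed_of_countable D (A \ {x}) (hAc.mono (fun y hy => hy.1))).closure_eq] at hx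
  exact hx.2 rfl

/-! ### Lindelöf property -/

/-- A finite set as a point of the space. -/
def ofFin (s : Finset W) : Sp D := ⟨(s : Set W), Or.inl s.finite_toSet⟩

theorem exists_supp (x : Sp D) : ∃ t : Finset W, (x.1.Finite ∧ (t : Set W) = x.1) ∨
    (¬ x.1.Finite ∧ ∃ γ ∈ D.E, x.1 = D.C γ ∧ t = {γ}) := by
  by_cases h : x.1.Finite
  · exact ⟨h.toFinset, Or.inl ⟨h, h.coe_toFinset⟩⟩
  · rcases x.2 with h' | ⟨γ, hγ, hx⟩
    · exact absurd h' h
    · exact ⟨{γ}, Or.inr ⟨h, γ, hγ, hx, rfl⟩⟩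

/-- A finite set of parameters defining the point. -/
noncomputable def supp (x : Sp D) : Finset W := (exists_supp D x).choose

theorem supp_spec (x : Sp D) : (x.1.Finite ∧ (supp D x : Set W) = x.1) ∨
    (¬ x.1.Finite ∧ ∃ γ ∈ D.E, x.1 = D.C γ ∧ supp D x = {γ}) := (exists_supp D x).choose_spec

theorem supp_inj (x y : Sp D) (h : supp D x = supp D y) (hf : x.1.Finite ↔ y.1.Finite) : x = y := by
  rcases supp_spec D x with ⟨h1, h2⟩ | ⟨h1, γ, hγ, h2, h3⟩ <;>
    rcases supp_spec D y with ⟨h1', h2'⟩ | ⟨h1', γ', hγ', h2', h3'⟩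
  · exact Subtype.ext (by rw [← h2, ← h2', h])
  · exact absurd (hf.mp h1) h1'
  · exact absurd (hf.mpr h1') h1
  · have : γ = γ' := by
      rw [h3, h3'] at h
      exact Finset.singleton_injective h
    exact Subtype.ext (by rw [h2, h2', this])

theorem countable_supp (s : Set W) (hs : s.Countable) :
    {x : Sp D | ∀ a ∈ supp D x, a ∈ s}.Countable := by
  classical
  have h1 : ((Set.ofPred fun t : Finset W => ∀ a ∈ t, a ∈ s) ×ˢ (univ : Set Bool)).Countable :=
    (countable_finset_sub s hs).prod (to_countable _)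
  have h2 : InjOn (fun x : Sp D => (supp D x, decide (x.1.Finite)))
      {x : Sp D | ∀ a ∈ supp D x, a ∈ s} := by
    intro x _ y _ hxy
    simp only [Prod.mk.injEq, decide_eq_decide] at hxy
    exact supp_inj D x y hxy.1 hxy.2
  refine (Set.MapsTo.countable_of_injOn (t := (Set.ofPred fun t : Finset W => ∀ a ∈ t, a ∈ s) ×ˢ
    (univ : Set Bool)) ?_ h2 h1)
  intro x hx
  exact ⟨hx, mem_univ _⟩

/-- If `y ∩ Iio δ` is not finite, then `y` is a ladder at or below `δ`. -/
theorem trace_cases (y : Sp D) (δ : W) : (y.1 ∩ Iio δ).Finite ∨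
    (∃ γ ∈ D.E, γ ≤ δ ∧ y.1 = D.C γ ∧ supp D y = {γ}) := by
  rcases supp_spec D y with ⟨h1, -⟩ | ⟨h1, γ, hγ, h2, h3⟩
  · left; exact h1.inter_of_left _
  · by_cases hδ : δ < γ
    · left; rw [h2]; exact D.fin γ δ hδ
    · right; exact ⟨γ, hγ, not_lt.mp hδ, h2, h3⟩

theorem lindelof (V : Sp D → Set (Sp D)) (hV : ∀ x, IsOpen (V x)) (hx : ∀ x, x ∈ V x) :
    ∃ A : Set (Sp D), A.Countable ∧ ∀ y, ∃ x ∈ A, y ∈ V x := by
  have h1 : ∀ x, ∃ α, cell D x α ⊆ V x := fun x => (isOpen_sp D _).mp (hV x) x (hx x)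
  choose α hα using h1
  obtain ⟨δ, -, hδ⟩ := D.hW.stat_univ (fun s => α (ofFin D s))
  refine ⟨{x : Sp D | ∀ a ∈ supp D x, a ∈ Iic δ}, countable_supp D _ ?_, ?_⟩
  · have : Iic δ = insert δ (Iio δ) := by
      ext z; simp [le_iff_eq_or_lt]
    rw [this]
    exact (D.hW.initial δ).insert δ
  intro y
  rcases trace_cases D y δ with h | ⟨γ, hγ, hγδ, hy, hs⟩
  · set s := h.toFinset with hsdef
    have hs : (s : Set W) = y.1 ∩ Iio δ := h.coe_toFinset
    refine ⟨ofFin D s, ?_, ?_⟩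
    · rcases supp_spec D (ofFin D s) with ⟨-, h2⟩ | ⟨h2, -⟩
      · intro a ha
        have : a ∈ (supp D (ofFin D s) : Set W) := ha
        rw [h2] at this
        change a ∈ (s : Set W) at this
        rw [hs] at this
        exact le_of_lt this.2
      · exact absurd s.finite_toSet h2
    · apply hα
      have h3 : α (ofFin D s) < δ := by
        apply hδ
        intro a ha
        have : a ∈ (s : Set W) := ha
        rw [hs] at this
        exact this.2
      change y.1 ∩ Iio (α (ofFin D s)) = (s : Set W) ∩ Iio (α (ofFin D s))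
      rw [hs, inter_assoc, inter_eq_right.mpr (Iio_subset_Iio h3.le)]
  · refine ⟨y, ?_, hx y⟩
    intro a ha
    rw [hs, Finset.mem_singleton] at ha
    exact ha ▸ hγδ

/-! ### Alice avoids a ladder -/

theorem countable_lists {α : Type} (s : Set α) (hs : s.Countable) :
    {l : List α | ∀ a ∈ l, a ∈ s}.Countable := by
  have : Countable s := hs.to_subtype
  rw [← Set.range_list_map_coe]
  exact countable_range _

theorem avoid (hE : Stat D.E) (Φ : List W → Set (Sp D))
    (hΦ : ∀ s α, ((fun y : Sp D => y.1 ∩ Iio α) '' Φ (s ++ [α])).Finite) :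
    ∃ (α : ℕ → W) (x : Sp D), ∀ n, x ∉ Φ ((List.range (n + 1)).map α) := by
  -- a bound for the sizes of the finite traces
  have h1 : ∀ s α, ∃ m : ℕ, ∀ y ∈ Φ (s ++ [α]), (y.1 ∩ Iio α).ncard ≤ m := by
    intro s α
    obtain ⟨m, hm⟩ := ((hΦ s α).image Set.ncard).bddAbove
    exact ⟨m, fun y hy => hm ⟨_, ⟨y, hy, rfl⟩, rfl⟩⟩
  choose m hm using h1
  -- unboundedly many `α` with the same bound
  have h2 : ∀ s, ∃ k : ℕ, ∀ β, ∃ α, β < α ∧ m s α = k := by
    intro s
    by_contra hc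
    push Not at hc
    choose β hβ using hc
    obtain ⟨b, hb⟩ := exists_gt' D (range β) (countable_range β)
    exact hβ (m s b) b (hb _ ⟨_, rfl⟩) rfl
  choose k a ha1 ha2 using h2
  -- closure function
  have h3 : ∀ t : Finset W, ∃ b, (∀ x ∈ t, x < b) ∧
      ∀ (s : List W) (β : W), (∀ x ∈ s, x ∈ t) → β ∈ t → a s β < b := by
    intro t
    have hc : (((fun p : List W × W => a p.1 p.2) ''
        ({l : List W | ∀ x ∈ l, x ∈ (t : Set W)} ×ˢ (t : Set W))) ∪ (t : Set W)).Countable :=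
      (((countable_lists _ t.countable_toSet).prod t.countable_toSet).image _).union
        t.countable_toSet
    obtain ⟨b, hb⟩ := exists_gt' D _ hc
    refine ⟨b, fun x hx => hb x (Or.inr hx), fun s β hs hβ => hb _ (Or.inl ⟨(s, β), ⟨hs, hβ⟩, rfl⟩)⟩
  choose h hh1 hh2 using h3
  obtain ⟨δ, hδE, hδ⟩ := hE h
  have hne : (Iio δ).Nonempty := ⟨h ∅, hδ ∅ (by simp)⟩
  have hlim : ∀ a < δ, ∃ b, a < b ∧ b < δ := fun a ha =>
    ⟨h {a}, hh1 {a} a (by simp), hδ {a} (by simpa using ha)⟩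
  have hinf : (D.C δ).Infinite := D.inf δ hne hlim
  -- one step
  have step : ∀ s : List W, (∀ x ∈ s, x < δ) → ∃ α, α < δ ∧
      (⟨D.C δ, Or.inr ⟨δ, hδE, rfl⟩⟩ : Sp D) ∉ Φ (s ++ [α]) := by
    classical
    intro s hs
    obtain ⟨T, hTC, hTcard⟩ := hinf.exists_subset_card_eq (k s + 1)
    have hTδ : ∀ x ∈ T, x < δ := fun x hx => D.sub δ (hTC hx)
    have hβ : ∃ β, β < δ ∧ ∀ x ∈ T, x < β :=
      ⟨h T, hδ T hTδ, fun x hx => hh1 T x hx⟩
    obtain ⟨β, hβδ, hβT⟩ := hβ
    have haδ : a s β < δ := by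
      have h4 : h (insert β s.toFinset) < δ := by
        apply hδ
        intro x hx
        rcases Finset.mem_insert.mp hx with h | h
        · exact h ▸ hβδ
        · exact hs x (List.mem_toFinset.mp h)
      refine lt_trans (hh2 (insert β s.toFinset) s β ?_ (Finset.mem_insert_self _ _)) h4
      intro x hx
      exact Finset.mem_insert_of_mem (List.mem_toFinset.mpr hx)
    refine ⟨a s β, haδ, fun hmem => ?_⟩
    have h5 := hm s (a s β) _ hmem
    rw [ha2] at h5
    have h6 : (T : Set W) ⊆ D.C δ ∩ Iio (a s β) := fun x hx =>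
      ⟨hTC hx, (hβT x hx).trans (ha1 s β)⟩
    have h7 := Set.ncard_le_ncard h6 (D.fin δ _ haδ)
    rw [Set.ncard_coe_finset, hTcard] at h7
    change (D.C δ ∩ Iio (a s β)).ncard ≤ k s at h5
    omega
  have step' : ∀ s : List W, ∃ α, (∀ x ∈ s, x < δ) → α < δ ∧
      (⟨D.C δ, Or.inr ⟨δ, hδE, rfl⟩⟩ : Sp D) ∉ Φ (s ++ [α]) := by
    intro s
    by_cases hs : ∀ x ∈ s, x < δ
    · obtain ⟨α, hα⟩ := step s hs
      exact ⟨α, fun _ => hα⟩
    · exact ⟨δ, fun hc => absurd hc hs⟩
  choose f hf using step'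
  let L : ℕ → List W := fun n => Nat.rec [] (fun _ l => l ++ [f l]) n
  have hL0 : L 0 = [] := rfl
  have hLs : ∀ n, L (n + 1) = L n ++ [f (L n)] := fun n => rfl
  have hLδ : ∀ n, ∀ x ∈ L n, x < δ := by
    intro n
    induction n with
    | zero => intro x hx; simp [hL0] at hx
    | succ n ih =>
      intro x hx
      rw [hLs, List.mem_append, List.mem_singleton] at hx
      rcases hx with hx | hx
      · exact ih x hx
      · rw [hx]; exact (hf _ ih).1
  have hLmap : ∀ n, L n = (List.range n).map (fun i => f (L i)) := by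
    intro n
    induction n with
    | zero => simp [hL0]
    | succ n ih =>
      rw [List.range_succ, List.map_append, ← ih, hLs]
      rfl
  refine ⟨fun i => f (L i), ⟨D.C δ, Or.inr ⟨δ, hδE, rfl⟩⟩, fun n => ?_⟩
  rw [← hLmap, hLs]
  exact (hf _ (hLδ n)).2

/-! ### The second player catches all finite sets -/

theorem catchAll (hE : Stat (D.E)ᶜ) (σ : List (Set (Sp D)) → Set (Set (Sp D)))
    (hopen : ∀ p, ∀ U ∈ σ p, IsOpen U)
    (hcov : ∀ p, ∀ K : Set (Sp D), K.Finite → ∃ U ∈ σ p, K ⊆ U) :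
    ∃ U : ℕ → Set (Sp D), (∀ n, U n ∈ σ ((List.range n).map U)) ∧
      ∀ K : Set (Sp D), K.Finite → ∃ n, K ⊆ U n := by
  classical
  have h1 : ∀ (p : List (Set (Sp D))) (F : Finset (Sp D)), ∃ U ∈ σ p, (F : Set (Sp D)) ⊆ U :=
    fun p F => hcov p F F.finite_toSet
  choose U hU1 hU2 using h1
  have h2 : ∀ (p : List (Set (Sp D))) (F : Finset (Sp D)), ∃ β : W, ∀ x ∈ F,
      cell D x β ⊆ U p F := by
    intro p F
    have h3 : ∀ x : Sp D, ∃ α, x ∈ F → cell D x α ⊆ U p F := by
      intro x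
      by_cases hx : x ∈ F
      · obtain ⟨α, hα⟩ := (isOpen_sp D _).mp (hopen p _ (hU1 p F)) x (hU2 p F hx)
        exact ⟨α, fun _ => hα⟩
      · exact ⟨(nonemptyW D).some, fun h => absurd h hx⟩
    choose α hα using h3
    obtain ⟨b, hb⟩ := exists_gt' D (α '' (F : Set (Sp D))) (F.countable_toSet.image α)
    exact ⟨b, fun x hx => (cell_anti D x (hb _ ⟨x, hx, rfl⟩).le).trans (hα x hx)⟩
  choose β hβ using h2
  let Pos : List (Finset (Sp D)) → List (Set (Sp D)) :=
    fun L => L.foldl (fun p F => p ++ [U p F]) []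
  have hPos : ∀ L F, Pos (L ++ [F]) = Pos L ++ [U (Pos L) F] := by
    intro L F
    simp [Pos, List.foldl_append]
  -- closure function
  have h3 : ∀ t : Finset W, ∃ b : W, ∀ (L : List (Finset (Sp D))) (F : Finset (Sp D)),
      (∀ G ∈ L, ∀ x ∈ G, supp D x ⊆ t) → (∀ x ∈ F, supp D x ⊆ t) → β (Pos L) F < b := by
    intro t
    set Z : Set (Sp D) := {x : Sp D | ∀ a ∈ supp D x, a ∈ (t : Set W)} with hZ
    have hZc : Z.Countable := countable_supp D _ t.countable_toSet
    have hF : {G : Finset (Sp D) | ∀ x ∈ G, x ∈ Z}.Countable := countable_finset_sub Z hZc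
    have hc := ((countable_lists _ hF).prod hF).image
      (fun q : List (Finset (Sp D)) × Finset (Sp D) => β (Pos q.1) q.2)
    obtain ⟨b, hb⟩ := exists_gt' D _ hc
    refine ⟨b, fun L F hL hF' => hb _ ⟨(L, F), ⟨?_, ?_⟩, rfl⟩⟩
    · intro G hG x hx a ha
      exact hL G hG x hx ha
    · intro x hx a ha
      exact hF' x hx ha
  choose h hh using h3
  obtain ⟨δ, hδE, hδ⟩ := hE h
  set Z : Set (Sp D) := {x : Sp D | ∀ a ∈ supp D x, a ∈ Iio δ} with hZ
  have hZc : Z.Countable := countable_supp D _ (D.hW.initial δ)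
  have hFc : {G : Finset (Sp D) | ∀ x ∈ G, x ∈ Z}.Countable := countable_finset_sub Z hZc
  obtain ⟨F, hF⟩ := hFc.exists_eq_range ⟨∅, by simp⟩
  have hFZ : ∀ n, ∀ x ∈ F n, x ∈ Z := fun n => by
    have : F n ∈ {G : Finset (Sp D) | ∀ x ∈ G, x ∈ Z} := by rw [hF]; exact ⟨n, rfl⟩
    exact this
  let L : ℕ → List (Finset (Sp D)) := fun n => (List.range n).map F
  let V : ℕ → Set (Sp D) := fun n => U (Pos (L n)) (F n)
  have hLs : ∀ n, L (n + 1) = L n ++ [F n] := fun n => by
    simp [L, List.range_succ]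
  have hPV : ∀ n, Pos (L n) = (List.range n).map V := by
    intro n
    induction n with
    | zero => simp [L, Pos]
    | succ n ih =>
      rw [hLs, hPos, List.range_succ, List.map_append, ← ih]
      rfl
  refine ⟨V, fun n => ?_, fun K hK => ?_⟩
  · rw [← hPV]
    exact hU1 _ _
  · -- the traces on `Iio δ`
    have hβδ : ∀ n, β (Pos (L n)) (F n) < δ := by
      intro n
      let t : Finset W := (Finset.range (n + 1)).biUnion fun i => (F i).biUnion (supp D)
      have ht : ∀ i ≤ n, ∀ x ∈ F i, supp D x ⊆ t := by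
        intro i hi x hx a ha
        exact Finset.mem_biUnion.mpr ⟨i, Finset.mem_range.mpr (by omega),
          Finset.mem_biUnion.mpr ⟨x, hx, ha⟩⟩
      refine lt_trans (hh t (L n) (F n) ?_ (ht n le_rfl)) (hδ t ?_)
      · intro G hG x hx
        obtain ⟨i, hi, rfl⟩ := List.mem_map.mp hG
        exact ht i (List.mem_range.mp hi).le x hx
      · intro a ha
        obtain ⟨i, -, hi⟩ := Finset.mem_biUnion.mp ha
        obtain ⟨x, hx, hax⟩ := Finset.mem_biUnion.mp hi
        exact hFZ i x hx a hax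
    have htr : ∀ y : Sp D, ∃ x ∈ Z, x.1 ∩ Iio δ = y.1 ∩ Iio δ := by
      intro y
      rcases trace_cases D y δ with h | ⟨γ, hγ, hγδ, hy, hs⟩
      · set s := h.toFinset with hsdef
        have hs : (s : Set W) = y.1 ∩ Iio δ := h.coe_toFinset
        refine ⟨ofFin D s, ?_, ?_⟩
        · rcases supp_spec D (ofFin D s) with ⟨-, h2⟩ | ⟨h2, -⟩
          · intro a ha
            have : a ∈ (supp D (ofFin D s) : Set W) := ha
            rw [h2] at this
            change a ∈ (s : Set W) at this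
            rw [hs] at this
            exact this.2
          · exact absurd s.finite_toSet h2
        · change (s : Set W) ∩ Iio δ = _
          rw [hs, inter_assoc, inter_self]
      · refine ⟨y, ?_, rfl⟩
        intro a ha
        rw [hs, Finset.mem_singleton] at ha
        rw [ha]
        exact lt_of_le_of_ne hγδ (fun h => hδE (h ▸ hγ))
    choose g hg1 hg2 using htr
    have hKF : hK.toFinset.image g ∈ {G : Finset (Sp D) | ∀ x ∈ G, x ∈ Z} := by
      intro x hx
      obtain ⟨y, -, rfl⟩ := Finset.mem_image.mp hx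
      exact hg1 y
    rw [hF] at hKF
    obtain ⟨n, hn⟩ := hKF
    refine ⟨n, fun y hy => ?_⟩
    have hgy : g y ∈ F n := by
      rw [hn]
      exact Finset.mem_image.mpr ⟨y, hK.mem_toFinset.mpr hy, rfl⟩
    apply hβ (Pos (L n)) (F n) (g y) hgy
    change y.1 ∩ Iio _ = (g y).1 ∩ Iio _
    have h4 : Iio (β (Pos (L n)) (F n)) = Iio δ ∩ Iio (β (Pos (L n)) (F n)) :=
      (inter_eq_right.mpr (Iio_subset_Iio (hβδ n).le)).symm
    rw [h4, ← inter_assoc, ← inter_assoc, hg2]

/-- There are data with `E` and its complement stationary. -/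
theorem exists_data : ∃ (W : Type) (_ : LinearOrder W) (D : Data W), Stat D.E ∧ Stat (D.E)ᶜ := by
  refine ⟨(Cardinal.aleph 1).ord.ToType, inferInstance, ?_⟩
  obtain ⟨E, hE1, hE2⟩ := omegaOneLike_toType.bistationary
  obtain ⟨C, h1, h2, h3⟩ := omegaOneLike_toType.ladder
  exact ⟨⟨omegaOneLike_toType, E, C, h1, h2, h3⟩, hE1, hE2⟩

end Pool.Agent.R492.Ladder
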